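import Pool.Agent.W300.FT.Stm

set_option autoImplicit false

/-! FT-PRV: three independent parts, for iid labellings. -/

namespace Pool.Agent.W686.FT.PRV

open Pool.Agent.W300.FT
open MeasureTheory ProbabilityTheory

instance (V : Type) : IsProbabilityMeasure (PI V) := by
  unfold PI; infer_instance

theorem measurable_mix {V : Type} (N : Set V) :
    Measurable (fun p : (V → unitInterval) × (V → unitInterval) => mix N p.1 p.2) := by
  refine measurable_pi_lambda _ fun v => ?_
  by_cases hv : v ∈ N
  · have : (fun p : (V → unitInterval) × (V → unitInterval) => mix N p.1 p.2 v) =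
        fun p => p.1 v := by
      funext p; simp [mix, hv]
    rw [this]
    exact (measurable_pi_apply v).comp measurable_fst
  · have : (fun p : (V → unitInterval) × (V → unitInterval) => mix N p.1 p.2 v) =
        fun p => p.2 v := by
      funext p; simp [mix, hv]
    rw [this]
    exact (measurable_pi_apply v).comp measurable_snd

theorem mix_law {V : Type} (N : Set V) :
    MeasurePreserving (fun p : (V → unitInterval) × (V → unitInterval) => mix N p.1 p.2)
      ((PI V).prod (PI V)) (PI V) := by
  classical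
  refine ⟨measurable_mix N, ?_⟩
  refine Measure.eq_infinitePi (fun _ : V => (volume : Measure unitInterval)) (fun s t ht => ?_)
  rw [Measure.map_apply (measurable_mix N) (MeasurableSet.pi s.countable_toSet fun i _ => ht i)]
  have h1 : (fun p : (V → unitInterval) × (V → unitInterval) => mix N p.1 p.2) ⁻¹'
      Set.pi (s : Set V) t = (Set.pi ((s.filter (· ∈ N) : Finset V) : Set V) t) ×ˢ
        (Set.pi ((s.filter (· ∉ N) : Finset V) : Set V) t) := by
    ext p
    simp only [Set.mem_preimage, Set.mem_pi, Set.mem_prod, Finset.coe_filter, Set.mem_setOf_eq,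
      Finset.mem_coe]
    constructor
    · intro h
      refine ⟨fun i hi => ?_, fun i hi => ?_⟩
      · have := h i hi.1
        simpa [mix, hi.2] using this
      · have := h i hi.1
        simpa [mix, hi.2] using this
    · rintro ⟨h2, h3⟩ i hi
      by_cases hN : i ∈ N
      · simpa [mix, hN] using h2 i ⟨hi, hN⟩
      · simpa [mix, hN] using h3 i ⟨hi, hN⟩
  rw [h1, Measure.prod_prod]
  unfold PI
  rw [Measure.infinitePi_pi (fun _ : V => (volume : Measure unitInterval)) (fun i _ => ht _),
    Measure.infinitePi_pi (fun _ : V => (volume : Measure unitInterval)) (fun i _ => ht _)]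
  exact Finset.prod_filter_mul_prod_filter_not s (· ∈ N) _

theorem prv (h : S_PR1) : S_PRV := by
  intro V NL NR Na Nb _ hNa hNb dNa dNb EL ER A0 B0 a b u w mEL mER mA0 mB0 ma mb mu mw
    dEL dER dA0 dB0 da db du dw hEA hEB hae hA hB
  -- the merged labelling
  let M : ((V → unitInterval) × (V → unitInterval)) × (V → unitInterval) → (V → unitInterval) :=
    fun t => mix NR (mix NL t.1.2 t.2) t.1.1
  have hM : MeasurePreserving M (((PI V).prod (PI V)).prod (PI V)) (PI V) := by
    have e1 : MeasurePreserving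
        (MeasurableEquiv.prodAssoc :
          ((V → unitInterval) × (V → unitInterval)) × (V → unitInterval) ≃ᵐ _)
        (((PI V).prod (PI V)).prod (PI V)) ((PI V).prod ((PI V).prod (PI V))) :=
      measurePreserving_prodAssoc (PI V) (PI V) (PI V)
    have e2 : MeasurePreserving Prod.swap ((PI V).prod ((PI V).prod (PI V)))
        (((PI V).prod (PI V)).prod (PI V)) := Measure.measurePreserving_swap
    have e3 := (mix_law NL).prod (MeasurePreserving.id (PI V))
    have e4 := mix_law (V := V) NR
    exact e4.comp (e3.comp (e2.comp e1))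
  -- agreement
  have mixin : ∀ (N : Set V) (y y' : V → unitInterval) (v : V), v ∈ N → mix N y y' v = y v := by
    intro N y y' v hv; simp [mix, hv]
  have mixout : ∀ (N : Set V) (y y' : V → unitInterval) (v : V), v ∉ N → mix N y y' v = y' v := by
    intro N y y' v hv; simp [mix, hv]
  have nNa : ∀ v ∈ Na, v ∉ NR := fun v hv hv' => Set.disjoint_left.1 dNa hv hv'
  have nNb : ∀ v ∈ Nb, v ∉ NL := fun v hv hv' => Set.disjoint_left.1 dNb hv hv'
  have aL : ∀ t, ∀ v ∈ NL, M t v = mix NR t.1.2 t.1.1 v := by
    intro t v hv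
    by_cases hR : v ∈ NR
    · show mix NR (mix NL t.1.2 t.2) t.1.1 v = _
      rw [mixin NR _ _ v hR, mixin NR _ _ v hR, mixin NL _ _ v hv]
    · show mix NR (mix NL t.1.2 t.2) t.1.1 v = _
      rw [mixout NR _ _ v hR, mixout NR _ _ v hR]
  have aR : ∀ t, ∀ v ∈ NR, M t v = mix NL t.1.2 t.2 v := by
    intro t v hv
    exact mixin NR _ _ v hv
  have aA : ∀ t, ∀ v ∈ Na, M t v = t.1.1 v := by
    intro t v hv
    exact mixout NR _ _ v (nNa v hv)
  have aB : ∀ t, ∀ v ∈ Nb, M t v = t.2 v := by
    intro t v hv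
    rw [aR t v (hNb hv)]
    exact mixout NL _ _ v (nNb v hv)
  have m12 : Measurable (fun p : (V → unitInterval) × (V → unitInterval) => mix NR p.2 p.1) :=
    (measurable_mix NR).comp measurable_swap
  have key := h (V → unitInterval) (V → unitInterval) (V → unitInterval) (PI V) (PI V) (PI V)
    inferInstance inferInstance inferInstance
    {p | mix NR p.2 p.1 ∈ EL} {p | mix NL p.1 p.2 ∈ ER} A0 B0 a b
    (fun p => u (mix NR p.2 p.1)) (fun p => w (mix NL p.1 p.2))
    (m12 mEL) ((measurable_mix NL) mER) mA0 mB0 ma mb (mu.comp m12) (mw.comp (measurable_mix NL))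
    (fun p hp => by
      have h1 : mix NR p.2 p.1 ∈ A0 := hEA hp
      have h2 : (mix NR p.2 p.1 ∈ A0) = (p.1 ∈ A0) := dA0 _ _ fun v hv =>
        mixout NR _ _ v (nNa v hv)
      rwa [h2] at h1)
    (fun p hp => by
      have h1 : mix NL p.1 p.2 ∈ B0 := hEB hp
      have h2 : (mix NL p.1 p.2 ∈ B0) = (p.2 ∈ B0) := dB0 _ _ fun v hv =>
        mixout NL _ _ v (nNb v hv)
      rwa [h2] at h1)
    (by
      filter_upwards [hM.quasiMeasurePreserving.ae hae] with t ht h1 h2 i
      have e1 : (M t ∈ EL) = (mix NR t.1.2 t.1.1 ∈ EL) := dEL _ _ (aL t)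
      have e2 : (M t ∈ ER) = (mix NL t.1.2 t.2 ∈ ER) := dER _ _ (aR t)
      have e3 : a (M t) = a t.1.1 := da _ _ (aA t)
      have e4 : b (M t) = b t.2 := db _ _ (aB t)
      have e5 : u (M t) = u (mix NR t.1.2 t.1.1) := du _ _ (aL t)
      have e6 : w (M t) = w (mix NL t.1.2 t.2) := dw _ _ (aR t)
      rw [e1, e2, e3, e4, e5, e6] at ht
      exact ht h1 h2 i)
    hA hB
  rw [← hM.measure_preimage (mEL.inter mER).nullMeasurableSet]
  refine Eq.trans ?_ key
  congr 1
  ext t
  have e1 : (M t ∈ EL) = (mix NR t.1.2 t.1.1 ∈ EL) := dEL _ _ (aL t)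
  have e2 : (M t ∈ ER) = (mix NL t.1.2 t.2 ∈ ER) := dER _ _ (aR t)
  simp only [Set.mem_preimage, Set.mem_inter_iff, Set.mem_setOf_eq]
  rw [e1, e2]

end Pool.Agent.W686.FT.PRV
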